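import Pool.Agent.Lib.MP_625934_al.Main
import Pool.Agent.Lib.MP_625934_al.Free

set_option autoImplicit false

namespace Pool.Agent.Results.MP_625934_al.CenterFree

open Pool.Agent.Lib.MP_625934_al

/-- A (non-unital, not necessarily associative) ring is alternative if `(x, x, y) = 0` and
`(y, x, x) = 0` for all `x`, `y`. -/
def Alternative (A : Type) [NonUnitalNonAssocRing A] : Prop :=
  ∀ x y : A, associator x x y = 0 ∧ associator y x x = 0

/-- `A` is the free alternative ring on `g 0`, `g 1`, `g 2`: it is alternative and every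
assignment of the three generators in an alternative ring extends to exactly one ring
homomorphism. -/
def FreeAlternative (A : Type) [NonUnitalNonAssocRing A] (g : Fin 3 → A) : Prop :=
  Alternative A ∧ ∀ (B : Type) [NonUnitalNonAssocRing B], Alternative B →
    ∀ b : Fin 3 → B, ∃! f : A →ₙ+* B, ∀ i, f (g i) = b i

/-- The associative center (nucleus). -/
def nucleus (A : Type) [NonUnitalNonAssocRing A] : Set A :=
  {n | ∀ a b : A, associator n a b = 0 ∧ associator a n b = 0 ∧ associator a b n = 0}

/-- The center: the elements of the nucleus that commute with every element. -/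
def center (A : Type) [NonUnitalNonAssocRing A] : Set A :=
  {z | z ∈ nucleus A ∧ ∀ a : A, z * a - a * z = 0}

/-- The associator ideal: the two-sided ideal generated by all associators. -/
def associatorIdeal (A : Type) [NonUnitalNonAssocRing A] : TwoSidedIdeal A :=
  TwoSidedIdeal.span {w | ∃ a b c : A, associator a b c = w}

theorem alternative_iff (A : Type) [NonUnitalNonAssocRing A] : Alternative A ↔ IsAlt A :=
  ⟨fun h => ⟨fun x y => sub_eq_zero.1 (h x y).1, fun x y => sub_eq_zero.1 (h y x).2⟩,
    fun h x y => ⟨sub_eq_zero.2 (h.l x y), sub_eq_zero.2 (h.r y x)⟩⟩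

theorem isFree3_of {A : Type} [NonUnitalNonAssocRing A] {g : Fin 3 → A}
    (h : FreeAlternative A g) : IsFree3 (fun i : ℕ => if h : i < 3 then g ⟨i, h⟩ else 0) where
  alt := (alternative_iff A).1 h.1
  zero k hk := dif_neg (by omega)
  gens := by
    intro P h0 h1 h2 h3 a
    set G : ℕ → A := fun i : ℕ => if h : i < 3 then g ⟨i, h⟩ else 0 with hG
    let T : AddSubgroup A := AddSubgroup.closure (Set.range (ev G))
    have hmul : ∀ x ∈ T, ∀ y ∈ T, x * y ∈ T := by
      intro x hx y hy
      induction hx using AddSubgroup.closure_induction with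
      | mem x hx =>
        obtain ⟨p, rfl⟩ := hx
        induction hy using AddSubgroup.closure_induction with
        | mem y hy =>
          obtain ⟨q, rfl⟩ := hy
          exact AddSubgroup.subset_closure ⟨Mg.m p q, rfl⟩
        | zero => rw [mul_zero]; exact T.zero_mem
        | add u v _ _ hu hv => rw [mul_add]; exact T.add_mem hu hv
        | neg u _ hu => rw [mul_neg]; exact T.neg_mem hu
      | zero => rw [zero_mul]; exact T.zero_mem
      | add u v _ _ hu hv => rw [add_mul]; exact T.add_mem hu hv
      | neg u _ hu => rw [neg_mul]; exact T.neg_mem hu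
    let S : NonUnitalSubring A :=
      { T with mul_mem' := fun {x y} hx hy => hmul x hx y hy }
    have hgS : ∀ i, g i ∈ S := by
      intro i
      change g i ∈ T
      fin_cases i
      · exact AddSubgroup.subset_closure ⟨Mg.x, rfl⟩
      · exact AddSubgroup.subset_closure ⟨Mg.y, rfl⟩
      · exact AddSubgroup.subset_closure ⟨Mg.z, rfl⟩
    have hS : Alternative S := fun x y =>
      ⟨Subtype.ext (h.1 (x : A) y).1, Subtype.ext (h.1 (x : A) y).2⟩
    obtain ⟨f, hf, -⟩ := h.2 S hS fun i => ⟨g i, hgS i⟩
    obtain ⟨f0, -, hf0⟩ := h.2 A h.1 g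
    have e1 := hf0 ((NonUnitalSubringClass.subtype S).comp f) fun i => by
      simp [hf i]
    have e2 := hf0 (NonUnitalRingHom.id A) fun i => rfl
    have haT : a ∈ T := by
      have e3 : ((NonUnitalSubringClass.subtype S).comp f) a = a := by
        rw [e1, ← e2]
        rfl
      rw [← e3]
      exact (f a).2
    induction haT using AddSubgroup.closure_induction with
    | mem x hx =>
      obtain ⟨p, rfl⟩ := hx
      exact h1 p
    | zero => exact h0
    | add u v _ _ hu hv => exact h2 u v hu hv
    | neg u _ hu => exact h3 u hu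
  lift B _ hB b := by
    obtain ⟨f, hf, -⟩ := h.2 B ((alternative_iff B).2 hB) fun i => b i
    exact ⟨f, fun i hi => by rw [dif_pos hi]; exact hf ⟨i, hi⟩⟩

theorem exists_free : FreeAlternative cAlt.Quotient fun i : Fin 3 => gF i := by
  refine ⟨(alternative_iff _).2 isFree_gF.alt, fun B _ hB b => ?_⟩
  obtain ⟨f, hf⟩ := isFree_gF.lift B ((alternative_iff B).1 hB)
    fun i => if h : i < 3 then b ⟨i, h⟩ else 0
  have hf' : ∀ i : Fin 3, f (gF i) = b i := fun i => by rw [hf i i.2, dif_pos i.2]
  refine ⟨f, hf', fun f' hf'' => ?_⟩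
  ext a
  induction a using isFree_gF.gens with
  | _zero => rw [map_zero, map_zero]
  | _mon p =>
    induction p with
    | x => exact (hf'' 0).trans (hf' 0).symm
    | y => exact (hf'' 1).trans (hf' 1).symm
    | z => exact (hf'' 2).trans (hf' 2).symm
    | m p q hp hq => rw [ev, map_mul, map_mul, hp, hq]
  | _add u v hu hv => rw [map_add, map_add, hu, hv]
  | _neg u hu => rw [map_neg, map_neg, hu]

/-- The free alternative ring on three generators exists, and in it the center is the
intersection of the nucleus with the associator ideal. -/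
theorem result :
    (∃ (A : Type) (_ : NonUnitalNonAssocRing A) (g : Fin 3 → A), FreeAlternative A g) ∧
      ∀ (A : Type) [NonUnitalNonAssocRing A] (g : Fin 3 → A), FreeAlternative A g →
        center A = nucleus A ∩ (associatorIdeal A : Set A) := by
  refine ⟨⟨_, _, _, exists_free⟩, fun A _ g h => ?_⟩
  obtain ⟨G, hg⟩ : ∃ G : ℕ → A, IsFree3 G := ⟨_, isFree3_of h⟩
  ext z
  constructor
  · rintro ⟨h1, h2⟩
    refine ⟨h1, ?_⟩
    let S : AddSubgroup A :=
      { carrier := associatorIdeal A
        add_mem' := fun hx hy => (associatorIdeal A).add_mem hx hy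
        zero_mem' := (associatorIdeal A).zero_mem
        neg_mem' := fun hx => (associatorIdeal A).neg_mem hx }
    exact hg.center_mem z (fun x => sub_eq_zero.1 (h2 x)) S
      (fun x y w => TwoSidedIdeal.subset_span ⟨x, y, w, rfl⟩)
      (fun a s hs => ⟨(associatorIdeal A).mul_mem_left a s hs,
        (associatorIdeal A).mul_mem_right s a hs⟩)
  · rintro ⟨h1, h2⟩
    refine ⟨h1, fun a => sub_eq_zero.2 (hg.comm_of_nuc z (fun x y => (h1 x y).1) ?_ a)⟩
    let I : TwoSidedIdeal A := TwoSidedIdeal.mk' (DD G : Set A) (DD G).zero_mem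
      (fun hx hy => (DD G).add_mem hx hy) (fun hx => (DD G).neg_mem hx)
      (fun {x y} hy => (DD.mul hg.gens hg.alt x y hy).1)
      (fun {x y} hx => (DD.mul hg.gens hg.alt y x hx).2)
    have h3 : z ∈ I := TwoSidedIdeal.mem_span_iff.1 h2 I (by
      rintro w ⟨x, y, u, rfl⟩
      rw [SetLike.mem_coe, TwoSidedIdeal.mem_mk']
      exact DD.asc hg.gens hg.alt x y u)
    rw [TwoSidedIdeal.mem_mk'] at h3
    exact h3

end Pool.Agent.Results.MP_625934_al.CenterFree
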